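import Pool.Agent.H62.Milj3

set_option autoImplicit false

namespace Pool.Agent.Results.MP_cf3d36_an.PositiveIso

/-- For every uncountable compact metric space `K` there is a positive isomorphism of `C(K)` onto
`C([0,1])`, and also an isomorphism with positive inverse; more generally there is a positive
isomorphism of `C(K)` onto `C(L)` for all uncountable compact metric `K`, `L`. -/
theorem result (K : Type*) [MetricSpace K] [CompactSpace K] [Uncountable K] :
    (∃ T : C(K, ℝ) ≃L[ℝ] C(unitInterval, ℝ),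
      ∀ f : C(K, ℝ), (∀ x, 0 ≤ f x) → ∀ y, 0 ≤ T f y) ∧
    (∃ T : C(K, ℝ) ≃L[ℝ] C(unitInterval, ℝ),
      ∀ g : C(unitInterval, ℝ), (∀ y, 0 ≤ g y) → ∀ x, 0 ≤ T.symm g x) ∧
    ∀ (L : Type*) [MetricSpace L] [CompactSpace L] [Uncountable L],
      ∃ T : C(K, ℝ) ≃L[ℝ] C(L, ℝ), ∀ f : C(K, ℝ), (∀ x, 0 ≤ f x) → ∀ y, 0 ≤ T f y := by
  have : Uncountable unitInterval := by
    rw [← Cardinal.aleph0_lt_mk_iff, Cardinal.mk_Icc_real zero_lt_one]
    exact Cardinal.aleph0_lt_continuum
  refine ⟨Pool.Agent.H62.Milj.general K unitInterval, ?_,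
    fun L _ _ _ => Pool.Agent.H62.Milj.general K L⟩
  obtain ⟨T, hT⟩ := Pool.Agent.H62.Milj.general unitInterval K
  exact ⟨T.symm, hT⟩

end Pool.Agent.Results.MP_cf3d36_an.PositiveIso
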